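import Pool.Agent.Run7.h402.PG.Iface

/-! helper569: piece MO of project PG (helper402). -/

set_option autoImplicit false

open Finset

namespace Run7.h569.PG

open Run7.h402.PG

theorem ev_exp (C : ℕ) : ∃ L2 : ℝ, ∀ L : ℝ, L2 ≤ L → 2 * L ^ C ≤ Real.exp L := by
  have h := (Real.tendsto_exp_div_pow_atTop C).eventually_ge_atTop 2
  obtain ⟨L2, hL2⟩ := (h.and (Filter.eventually_gt_atTop (0 : ℝ))).exists_forall_of_atTop
  refine ⟨L2, fun L hL => ?_⟩
  obtain ⟨h1, h2⟩ := hL2 L hL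
  rwa [le_div_iff₀ (pow_pos h2 C)] at h1

theorem g_nonneg (k q : ℕ) (hq : q.Prime) : 0 ≤ ((1 - 1 / (q : ℝ))⁻¹) ^ k - 1 := by
  have h2 : (2 : ℝ) ≤ q := by exact_mod_cast hq.two_le
  have h1 : (1 : ℝ) / q ≤ 1 / 2 := one_div_le_one_div_of_le (by norm_num) h2
  have h0 : (0 : ℝ) < 1 / q := by positivity
  have h3 : (1 : ℝ) ≤ (1 - 1 / (q : ℝ))⁻¹ := by
    rw [one_le_inv₀ (by linarith)]
    linarith
  have := one_le_pow₀ (n := k) h3
  linarith

/-- bound of one cardinality -/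
theorem card_le (p : ℕ) (hp : 1 ≤ p) (A e c T : ℝ) (hA : 1 ≤ A) (he : 1 ≤ e) (hc : 0 ≤ c)
    (hT : 0 ≤ T) (h : e * c ^ p ≤ A * T ^ (2 * p)) : c ≤ A * T ^ 2 * e ^ (-(1 / (p : ℝ))) := by
  have hp' : (0 : ℝ) < p := by exact_mod_cast hp
  have hpn : p ≠ 0 := by omega
  have he0 : 0 < e := by linarith
  have h1 : (A * T ^ 2 * e ^ (-(1 / (p : ℝ)))) ^ p = A ^ p * T ^ (2 * p) * e⁻¹ := by
    rw [mul_pow, mul_pow, ← pow_mul, ← Real.rpow_natCast (e ^ (-(1 / (p : ℝ)))) p,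
      ← Real.rpow_mul he0.le]
    have : -(1 / (p : ℝ)) * (p : ℝ) = -1 := by field_simp
    rw [this, Real.rpow_neg_one]
  have h2 : c ^ p ≤ (A * T ^ 2 * e ^ (-(1 / (p : ℝ)))) ^ p := by
    rw [h1]
    have h3 : A ≤ A ^ p := le_self_pow₀ hA hpn
    have h4 : c ^ p ≤ A * T ^ (2 * p) * e⁻¹ := by
      rw [← div_eq_mul_inv, le_div_iff₀ he0]
      linarith
    refine h4.trans ?_
    have h5 : 0 ≤ T ^ (2 * p) := pow_nonneg hT _
    exact mul_le_mul_of_nonneg_right (mul_le_mul_of_nonneg_right h3 h5) (by positivity)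
  exact le_of_pow_le_pow_left₀ hpn (by positivity) h2

theorem t_MO : S_DV → S_MOA → S_MOB → S_MOC → S_MO := by
  intro hDV hMOA hMOB hMOC p B C D hp
  obtain ⟨L1, hL1⟩ := hMOA B (D + 1)
  obtain ⟨L2, hL2⟩ := ev_exp C
  obtain ⟨Cp, hCp, hC⟩ := hMOC p hp
  refine ⟨2 + 2 * C + ⌈Cp * B⌉₊, max (max L1 L2) (max (5 * p) 1), ?_⟩
  intro L hL T N v hN1 hN2 hv hEn w k hkw hk
  have hLL1 : L1 ≤ L := ((le_max_left _ _).trans (le_max_left _ _)).trans hL
  have hLL2 : L2 ≤ L := ((le_max_right _ _).trans (le_max_left _ _)).trans hL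
  have hL5 : (5 * p : ℝ) ≤ L := ((le_max_left _ _).trans (le_max_right _ _)).trans hL
  have hLge1 : (1 : ℝ) ≤ L := ((le_max_right _ _).trans (le_max_right _ _)).trans hL
  have hL0 : 0 < L := by linarith
  have hp' : (1 : ℝ) ≤ p := by exact_mod_cast hp
  set y : ℕ := ⌊L / 8⌋₊ with hy
  set P : Finset ℕ := (Icc 1 y).filter (fun q => q.Prime ∧ w < q) with hP
  set g : ℕ → ℝ := fun q => ((1 - 1 / (q : ℝ))⁻¹) ^ k - 1 with hg
  have hPp : ∀ q ∈ P, q.Prime := fun q hq => (Finset.mem_filter.1 hq).2.1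
  have hg0 : ∀ q ∈ P, 0 ≤ g q := fun q hq => g_nonneg k q (hPp q hq)
  -- termwise
  have hterm : ∀ x : Fin T × Fin T,
      (if v x.1 = v x.2 then 0 else hh w (v x.1 - v x.2).natAbs ^ k) ≤
        L * ∏ q ∈ P.filter (fun q : ℕ => (q : ℤ) ∣ v x.1 - v x.2), (1 + g q) := by
    intro x
    have hnn : 0 ≤ ∏ q ∈ P.filter (fun q : ℕ => (q : ℤ) ∣ v x.1 - v x.2), (1 + g q) :=
      Finset.prod_nonneg fun q hq => by
        have := hg0 q (Finset.mem_filter.1 hq).1
        linarith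
    split_ifs with hx
    · positivity
    · have hd : (v x.1 - v x.2).natAbs ≠ 0 := by
        rw [Int.natAbs_ne_zero]
        exact sub_ne_zero.2 hx
      have hdle : (((v x.1 - v x.2).natAbs : ℕ) : ℝ) ≤ Real.exp ((((D + 1 : ℕ)) : ℝ) * L) := by
        rw [Nat.cast_natAbs]
        push_cast
        have h1 := hv x.1
        have h2 := hv x.2
        have h3 : |((v x.1 : ℝ)) - (v x.2 : ℝ)| ≤ |(v x.1 : ℝ)| + |(v x.2 : ℝ)| := abs_sub _ _
        have h4 : (N : ℝ) * L ^ C + N * L ^ C ≤ Real.exp (D * L) * Real.exp L := by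
          have : (N : ℝ) * L ^ C + N * L ^ C = N * (2 * L ^ C) := by ring
          rw [this]
          exact mul_le_mul hN2 (hL2 L hLL2) (by positivity) (Real.exp_pos _).le
        rw [← Real.exp_add] at h4
        have h5 : (D : ℝ) * L + L = ((D : ℝ) + 1) * L := by ring
        rw [h5] at h4
        push_cast at h1 h2
        linarith
      have h := hL1 L hLL1 _ w k hd hdle hk
      refine h.trans (le_of_eq ?_)
      congr 1
      have hset : (Icc 1 ⌊L / 8⌋₊).filter (fun q => q.Prime ∧ w < q ∧ q ∣ (v x.1 - v x.2).natAbs)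
          = P.filter (fun q : ℕ => (q : ℤ) ∣ v x.1 - v x.2) := by
        ext q
        simp only [hP, Finset.mem_filter, Int.natCast_dvd]
        tauto
      rw [hset]
      refine Finset.prod_congr rfl fun q _ => ?_
      simp only [hg]
      ring
  -- cardinalities
  have hN0 : (0 : ℝ) < N := lt_of_lt_of_le (Real.exp_pos _) hN1
  have hLC : (1 : ℝ) ≤ L ^ C := one_le_pow₀ hLge1
  set M : ℕ := ⌊(N : ℝ) * L ^ C⌋₊ with hM
  have hMle : (M : ℝ) ≤ N * L ^ C := Nat.floor_le (by positivity)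
  have hNM : N ≤ M := Nat.le_floor (by nlinarith)
  have hvM : ∀ i, |v i| ≤ (M : ℤ) := by
    intro i
    have h1 : (((v i).natAbs : ℕ) : ℝ) ≤ N * L ^ C := by
      rw [Nat.cast_natAbs]
      have := hv i
      push_cast at this ⊢
      exact this
    have h2 : (v i).natAbs ≤ M := Nat.le_floor h1
    rw [Int.abs_eq_natAbs]
    exact_mod_cast h2
  have hcard : ∀ Q ∈ P.powerset,
      ((univ.filter (fun x : Fin T × Fin T => ((∏ q ∈ Q, q : ℕ) : ℤ) ∣ v x.1 - v x.2)).card : ℝ) ≤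
        5 * p * L ^ (2 * C) * (T : ℝ) ^ 2 * ∏ q ∈ Q, (q : ℝ) ^ (-(1 / (p : ℝ))) := by
    intro Q hQ
    have hQP := Finset.mem_powerset.1 hQ
    have hQ1 : ∀ q ∈ Q, 1 ≤ q := fun q hq => (hPp q (hQP hq)).one_lt.le
    have he1 : 1 ≤ ∏ q ∈ Q, q := Finset.one_le_prod' hQ1
    have heN : ((∏ q ∈ Q, q : ℕ) : ℝ) ≤ N := by
      have h1 : ∏ q ∈ Q, q ≤ primorial y := by
        unfold primorial
        refine Finset.prod_le_prod_of_subset_of_one_le' ?_ ?_
        · intro q hq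
          have := hQP hq
          simp only [hP, Finset.mem_filter, Finset.mem_Icc] at this
          rw [Finset.mem_filter, Finset.mem_range]
          exact ⟨by omega, this.2.1⟩
        · intro q hq _
          exact (Finset.mem_filter.1 hq).2.one_lt.le
      have h2 : ((∏ q ∈ Q, q : ℕ) : ℝ) ≤ (4 : ℝ) ^ y := by
        exact_mod_cast h1.trans (primorial_le_four_pow y)
      have h3 : (4 : ℝ) ^ y ≤ Real.exp (L / 4) := by
        have h4 : (4 : ℝ) ≤ Real.exp 2 := by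
          have := Real.add_one_le_exp (1 : ℝ)
          have h5 : Real.exp 2 = Real.exp 1 * Real.exp 1 := by
            rw [← Real.exp_add]; norm_num
          rw [h5]
          nlinarith
        calc (4 : ℝ) ^ y ≤ (Real.exp 2) ^ y := pow_le_pow_left₀ (by norm_num) h4 _
          _ = Real.exp (y * 2) := by rw [← Real.exp_nat_mul]
          _ ≤ Real.exp (L / 4) := by
            apply Real.exp_le_exp.2
            have : (y : ℝ) ≤ L / 8 := Nat.floor_le (by positivity)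
            linarith
      linarith
    set e : ℕ := ∏ q ∈ Q, q with he
    have hdv := hDV p T M e v he1 hvM
    have hdv' : (e : ℝ) * ((univ.filter (fun x : Fin T × Fin T => ((e : ℕ) : ℤ) ∣ v x.1 - v x.2)).card
        : ℝ) ^ p ≤ (4 * p * M + e) * (En p v : ℝ) := by exact_mod_cast hdv
    have hEn0 : (0 : ℝ) ≤ En p v := Nat.cast_nonneg _
    have hNM' : (N : ℝ) ≤ M := by exact_mod_cast hNM
    have hM0 : (0 : ℝ) ≤ M := Nat.cast_nonneg _
    have hA : (4 * (p : ℝ) * M + e) * (En p v : ℝ) ≤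
        5 * p * L ^ (2 * C) * (T : ℝ) ^ (2 * p) := by
      have h1 : (4 * (p : ℝ) * M + e) ≤ 5 * p * M := by nlinarith
      calc (4 * (p : ℝ) * M + e) * (En p v : ℝ) ≤ 5 * p * M * (En p v : ℝ) :=
            mul_le_mul_of_nonneg_right h1 hEn0
        _ ≤ 5 * p * (N * L ^ C) * (En p v : ℝ) := by
            apply mul_le_mul_of_nonneg_right _ hEn0
            apply mul_le_mul_of_nonneg_left hMle (by positivity)
        _ = 5 * p * L ^ C * ((En p v : ℝ) * N) := by ring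
        _ ≤ 5 * p * L ^ C * (L ^ C * (T : ℝ) ^ (2 * p)) :=
            mul_le_mul_of_nonneg_left hEn (by positivity)
        _ = 5 * p * L ^ (2 * C) * (T : ℝ) ^ (2 * p) := by rw [two_mul, pow_add]; ring
    have hAge : (1 : ℝ) ≤ 5 * p * L ^ (2 * C) := by
      have h1 : (1 : ℝ) ≤ L ^ (2 * C) := one_le_pow₀ hLge1
      nlinarith
    have hfin := card_le p hp (5 * p * L ^ (2 * C)) e _ T hAge (by exact_mod_cast he1)
      (Nat.cast_nonneg _) (Nat.cast_nonneg _) (hdv'.trans hA)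
    refine hfin.trans (le_of_eq ?_)
    congr 1
    rw [he, Nat.cast_prod]
    rw [← Real.finset_prod_rpow _ _ (fun q _ => Nat.cast_nonneg q)]
  -- the sum
  have hsum1 : ∑ x : Fin T × Fin T, (if v x.1 = v x.2 then 0 else hh w (v x.1 - v x.2).natAbs ^ k) ≤
      L * ∑ Q ∈ P.powerset, (∏ q ∈ Q, g q) *
        ((univ.filter (fun x : Fin T × Fin T => ((∏ q ∈ Q, q : ℕ) : ℤ) ∣ v x.1 - v x.2)).card : ℝ) := by
    rw [← hMOB T v P g hPp, Finset.mul_sum]
    exact Finset.sum_le_sum fun x _ => hterm x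
  have hsum2 : ∑ Q ∈ P.powerset, (∏ q ∈ Q, g q) *
        ((univ.filter (fun x : Fin T × Fin T => ((∏ q ∈ Q, q : ℕ) : ℤ) ∣ v x.1 - v x.2)).card : ℝ) ≤
      5 * p * L ^ (2 * C) * (T : ℝ) ^ 2 *
        ∏ q ∈ P, (1 + g q * (q : ℝ) ^ (-(1 / (p : ℝ)))) := by
    rw [Finset.prod_one_add, Finset.mul_sum]
    refine Finset.sum_le_sum fun Q hQ => ?_
    have hQP := Finset.mem_powerset.1 hQ
    have hgn : 0 ≤ ∏ q ∈ Q, g q := Finset.prod_nonneg fun q hq => hg0 q (hQP hq)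
    refine (mul_le_mul_of_nonneg_left (hcard Q hQ) hgn).trans (le_of_eq ?_)
    rw [Finset.prod_mul_distrib]
    ring
  have hE := hC w k y hkw
  have hexp : Real.exp (Cp * k) ≤ L ^ ⌈Cp * B⌉₊ := by
    have hlog : 0 ≤ Real.log L := Real.log_nonneg hLge1
    have h1 : Cp * k ≤ (⌈Cp * B⌉₊ : ℝ) * Real.log L := by
      calc Cp * k ≤ Cp * (B * Real.log L) := mul_le_mul_of_nonneg_left hk hCp.le
        _ = (Cp * B) * Real.log L := by ring
        _ ≤ (⌈Cp * B⌉₊ : ℝ) * Real.log L := mul_le_mul_of_nonneg_right (Nat.le_ceil _) hlog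
    calc Real.exp (Cp * k) ≤ Real.exp ((⌈Cp * B⌉₊ : ℝ) * Real.log L) := Real.exp_le_exp.2 h1
      _ = L ^ ⌈Cp * B⌉₊ := by rw [Real.exp_nat_mul, Real.exp_log hL0]
  have hprod : ∏ q ∈ P, (1 + g q * (q : ℝ) ^ (-(1 / (p : ℝ)))) ≤ L ^ ⌈Cp * B⌉₊ := hE.trans hexp
  calc ∑ x : Fin T × Fin T, (if v x.1 = v x.2 then 0 else hh w (v x.1 - v x.2).natAbs ^ k)
      ≤ L * (5 * p * L ^ (2 * C) * (T : ℝ) ^ 2 * L ^ ⌈Cp * B⌉₊) := by
        refine hsum1.trans (mul_le_mul_of_nonneg_left ?_ hL0.le)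
        exact hsum2.trans (mul_le_mul_of_nonneg_left hprod (by positivity))
    _ ≤ L * (L * L ^ (2 * C) * (T : ℝ) ^ 2 * L ^ ⌈Cp * B⌉₊) := by
        apply mul_le_mul_of_nonneg_left _ hL0.le
        apply mul_le_mul_of_nonneg_right _ (by positivity)
        apply mul_le_mul_of_nonneg_right _ (by positivity)
        exact mul_le_mul_of_nonneg_right hL5 (by positivity)
    _ = (T : ℝ) ^ 2 * L ^ (2 + 2 * C + ⌈Cp * B⌉₊) := by
        rw [pow_add, pow_add]
        ring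

end Run7.h569.PG
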